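import Mathlib
import Pool.Agent.H317F.Sys

set_option autoImplicit false

/-!
Fixed-point free systems for which the `ℤ/p`-index of the `p`-periodic points grows linearly in `p`.

For `q ≥ 1` let `X_q ⊆ [0,1]^ℤ` be the set of the sequences `z` such that every window of `10 q + 1`
consecutive integers `j` contains one with `|z (j + 1) - z j| ≥ 1 / (10 q)`. The `p`-periodic
sequences with minimum `0` and maximum `1` form a sphere of dimension `p - 2`. Those of them that do
not lie in `X_q` are either slowly varying or have a long flat window next to a jump, and both kinds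
have an equivariant cover of multiplicity at most `3 (p / q + 1)`. Subadditivity of the multiplicity
and a `ℤ/p` Lusternik-Schnirelmann theorem for the sphere give the lower bound.
-/

namespace Pool.Agent.Results.MP_b3a110_an.LinearIndexGrowth

open H317F Topology unitInterval

/-- `E_n ℤ_p`, the `(n+1)`-fold join of the discrete space `ℤ/p`: its points are the families
`w i g ≥ 0` (`0 ≤ i ≤ n`, `g ∈ ℤ/p`) of total sum `1` such that for each `i` there is at most one
`g` with `w i g ≠ 0` (the point `∑ tᵢ gᵢ` of the join has `w i gᵢ = tᵢ`). -/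
def EJoin (p n : ℕ) [NeZero p] : Type :=
  {w : Fin (n + 1) → ZMod p → ℝ // (∀ i g, 0 ≤ w i g) ∧ (∑ i, ∑ g, w i g = 1) ∧
    ∀ i g g', w i g ≠ 0 → w i g' ≠ 0 → g = g'}

instance (p n : ℕ) [NeZero p] : TopologicalSpace (EJoin p n) :=
  inferInstanceAs (TopologicalSpace {w : Fin (n + 1) → ZMod p → ℝ // (∀ i g, 0 ≤ w i g) ∧
    (∑ i, ∑ g, w i g = 1) ∧ ∀ i g g', w i g ≠ 0 → w i g' ≠ 0 → g = g'})

/-- The generator of `ℤ/p` acts on `E_n ℤ_p` by `gᵢ ↦ gᵢ + 1`. -/
def EJoin.shift {p n : ℕ} [NeZero p] (w : EJoin p n) : EJoin p n :=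
  ⟨fun i g => w.1 i (g - 1), fun i g => w.2.1 i _, by
    refine Eq.trans ?_ w.2.2.1
    refine Finset.sum_congr rfl fun i _ => ?_
    exact Fintype.sum_equiv (Equiv.subRight 1) _ _ (fun g => rfl),
    fun i g g' h h' => by
      have := w.2.2.2 i _ _ h h'
      exact sub_left_injective this⟩

/-- The `p`-periodic points of the system `(X, T)`. -/
abbrev Per {X : Type} [TopologicalSpace X] (T : X ≃ₜ X) (p : ℕ) : Type :=
  {x : X // (T ^ p) x = x}

/-- The action of `T` on its `p`-periodic points. -/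
def Per.next {X : Type} [TopologicalSpace X] {T : X ≃ₜ X} {p : ℕ} (x : Per T p) : Per T p :=
  ⟨T x.1, by
    have h1 : (T ^ p) (T x.1) = T ((T ^ p) x.1) := by
      rw [← Homeomorph.mul_apply, ← Homeomorph.mul_apply, ← pow_succ, ← pow_succ']
    rw [h1, x.2]⟩

/-- There is a continuous equivariant map from the `p`-periodic points of `T` to `E_n ℤ_p`. -/
def HasMap {X : Type} [TopologicalSpace X] (T : X ≃ₜ X) (p n : ℕ) [NeZero p] : Prop :=
  ∃ f : Per T p → EJoin p n, Continuous f ∧ ∀ x, f x.next = (f x).shift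

/-- The index of the `ℤ/p`-space of `p`-periodic points: the least `n ≥ 0` for which there is a
continuous equivariant map to `E_n ℤ_p` (and `⊤` if there is none). -/
noncomputable def indPer {X : Type} [TopologicalSpace X] (T : X ≃ₜ X) (p : ℕ) [NeZero p] : ℕ∞ :=
  sInf {m : ℕ∞ | ∃ n : ℕ, HasMap T p n ∧ m = n}

/-- the phase space -/
abbrev Xq (q : ℕ) : Type := {z : ZZ // NP 1 q z}

/-- the shift as a homeomorphism -/
def shiftHomeo (q : ℕ) : Xq q ≃ₜ Xq q where
  toFun z := ⟨T 1 z.1, NP_T z.2 1⟩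
  invFun z := ⟨T (-1) z.1, NP_T z.2 (-1)⟩
  left_inv z := Subtype.ext (by simp [T_T])
  right_inv z := Subtype.ext (by simp [T_T])
  continuous_toFun := ((continuous_T 1).comp continuous_subtype_val).subtype_mk _
  continuous_invFun := ((continuous_T (-1)).comp continuous_subtype_val).subtype_mk _

lemma shiftHomeo_pow (q n : ℕ) (z : Xq q) : ((shiftHomeo q ^ n) z).1 = T n z.1 := by
  induction n with
  | zero => simp
  | succ n ih =>
    rw [pow_succ', Homeomorph.mul_apply]
    show T 1 ((shiftHomeo q ^ n) z).1 = _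
    rw [ih, T_T]
    congr 1
    push_cast
    ring

lemma thin_of_hasMap (q p n : ℕ) [hp : Fact p.Prime] (h : HasMap (shiftHomeo q) p n) :
    Thin p (n + 1) {x : PP p | NP 1 q (per x)} := by
  obtain ⟨f, hf, heq⟩ := h
  -- the periodic point defined by `x`
  have hper : ∀ x : PP p, T (p : ℤ) (per x) = per x := by
    intro x
    rw [T_per]
    simp
  let A : Set (PP p) := {x : PP p | NP 1 q (per x)}
  let ι : A → Per (shiftHomeo q) p := fun x => ⟨⟨per x.1, x.2⟩, Subtype.ext (by
    rw [shiftHomeo_pow]; exact hper x.1)⟩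
  have hcper : Continuous (per : PP p → ZZ) := continuous_pi fun n => continuous_apply _
  have hι : Continuous ι := by
    apply Continuous.subtype_mk
    apply Continuous.subtype_mk
    exact hcper.comp continuous_subtype_val
  have hA : IsCompact A := by
    apply IsClosed.isCompact
    exact (isClosed_NP 1 q).preimage hcper
  have : CompactSpace A := isCompact_iff_compactSpace.mp hA
  let w : A → Fin (n + 1) → ZMod p → ℝ := fun x => (f (ι x)).1
  have hw : Continuous w := continuous_subtype_val.comp (hf.comp hι)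
  have huc := CompactSpace.uniformContinuous_of_continuous hw
  -- equivariance
  have hrotA : ∀ x : A, ∀ j : ZMod p, rot j x.1 ∈ A := by
    intro x j
    show NP 1 q (per (rot j x.1))
    have : rot j x.1 = rot (((j.val : ℕ) : ℤ) : ZMod p) x.1 := by simp
    rw [this, ← T_per]
    exact NP_T x.2 _
  have hstep : ∀ x : A, ∀ i g, w ⟨rot 1 x.1, hrotA x 1⟩ i g = w x i (g - 1) := by
    intro x i g
    have h1 : ι ⟨rot 1 x.1, hrotA x 1⟩ = (ι x).next := by
      apply Subtype.ext
      apply Subtype.ext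
      show per (rot 1 x.1) = T 1 (per x.1)
      rw [T_per]; simp
    show (f (ι _)).1 i g = _
    rw [h1, heq]
    rfl
  have hrot : ∀ (k : ℕ) (x : A) (i : Fin (n + 1)) (g : ZMod p),
      w ⟨rot (k : ZMod p) x.1, hrotA x k⟩ i g = w x i (g - k) := by
    intro k
    induction k with
    | zero =>
      intro x i g
      have : (⟨rot ((0 : ℕ) : ZMod p) x.1, hrotA x (0 : ℕ)⟩ : A) = x := by
        apply Subtype.ext; simp
      rw [this]; simp
    | succ k ih =>
      intro x i g
      have h2 : (⟨rot ((k + 1 : ℕ) : ZMod p) x.1, hrotA x (k + 1 : ℕ)⟩ : A) =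
          ⟨rot 1 (rot (k : ZMod p) x.1), hrotA ⟨rot (k : ZMod p) x.1, hrotA x k⟩ 1⟩ := by
        apply Subtype.ext
        show rot _ _ = rot 1 (rot _ _)
        rw [rot_rot]
        congr 1
        push_cast; ring
      rw [h2, hstep ⟨rot (k : ZMod p) x.1, hrotA x k⟩ i g, ih]
      congr 1
      push_cast; ring
  have hrot' : ∀ (j : ZMod p) (x : A) (i : Fin (n + 1)) (g : ZMod p),
      w ⟨rot j x.1, hrotA x j⟩ i g = w x i (g - j) := by
    intro j x i g
    have h1 := hrot j.val x i g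
    have h2 : (⟨rot ((j.val : ℕ) : ZMod p) x.1, hrotA x _⟩ : A) = ⟨rot j x.1, hrotA x j⟩ := by
      apply Subtype.ext; simp
    rw [h2] at h1
    rw [h1]; simp
  have hn : (0 : ℝ) < 1 / ((n : ℝ) + 1) := by positivity
  obtain ⟨δ, hδ, hδ'⟩ := Metric.uniformContinuous_iff.mp huc (1 / ((n : ℝ) + 1)) hn
  refine ⟨{x | ∃ h : x ∈ A, ∃ i, 1 / ((n : ℝ) + 1) ≤ w ⟨x, h⟩ i 0}, δ, hδ, ?_, ?_⟩
  · intro x hx
    -- some weight is large
    have h1 : ∃ i : Fin (n + 1), 1 / ((n : ℝ) + 1) ≤ ∑ g, w ⟨x, hx⟩ i g := by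
      by_contra hcon
      push Not at hcon
      have h2 : ∑ i : Fin (n + 1), ∑ g, w ⟨x, hx⟩ i g < ∑ _i : Fin (n + 1), 1 / ((n : ℝ) + 1) :=
        Finset.sum_lt_sum_of_nonempty Finset.univ_nonempty fun i _ => hcon i
      have h3 : ∑ i : Fin (n + 1), ∑ g, w ⟨x, hx⟩ i g = 1 := (f (ι ⟨x, hx⟩)).2.2.1
      rw [h3] at h2
      simp only [Finset.sum_const, Finset.card_univ, Fintype.card_fin, nsmul_eq_mul] at h2
      push_cast at h2
      have h4 : ((n : ℝ) + 1) * (1 / ((n : ℝ) + 1)) = 1 := by field_simp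
      rw [h4] at h2
      exact lt_irrefl _ h2
    obtain ⟨i, hi⟩ := h1
    obtain ⟨g, hg⟩ : ∃ g, w ⟨x, hx⟩ i g ≠ 0 := by
      by_contra hcon
      push Not at hcon
      rw [Finset.sum_eq_zero fun g _ => hcon g] at hi
      linarith
    have h5 : ∑ g', w ⟨x, hx⟩ i g' = w ⟨x, hx⟩ i g := by
      apply Finset.sum_eq_single g
      · intro g' _ hne
        by_contra hcon
        exact hne ((f (ι ⟨x, hx⟩)).2.2.2 i g' g hcon hg)
      · intro h; exact absurd (Finset.mem_univ g) h
    rw [h5] at hi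
    refine ⟨-g, hrotA ⟨x, hx⟩ (-g), i, ?_⟩
    rw [hrot' (-g) ⟨x, hx⟩ i 0]
    simpa using hi
  · intro S hS hd
    rcases S.eq_empty_or_nonempty with rfl | ⟨x₀, hx₀⟩
    · simp
    have hx₀A : x₀ ∈ A := hS hx₀
    -- labels of the base point
    classical
    let lab : Fin (n + 1) → ZMod p := fun i =>
      if h : ∃ g, w ⟨x₀, hx₀A⟩ i g ≠ 0 then - h.choose else 0
    have h1 : {j | ∃ x ∈ S, rot j x ∈ {x | ∃ h : x ∈ A, ∃ i, 1 / ((n : ℝ) + 1) ≤ w ⟨x, h⟩ i 0}} ⊆
        ((Finset.univ.image lab : Finset (ZMod p)) : Set (ZMod p)) := by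
      rintro j ⟨x, hx, _, i, hi⟩
      have hxA : x ∈ A := hS hx
      rw [hrot' j ⟨x, hxA⟩ i 0, zero_sub] at hi
      have h2 : dist (w ⟨x, hxA⟩ i (-j)) (w ⟨x₀, hx₀A⟩ i (-j)) < 1 / ((n : ℝ) + 1) :=
        ((dist_le_pi_dist _ _ _).trans (dist_le_pi_dist _ _ i)).trans_lt
          (hδ' (a := ⟨x, hxA⟩) (b := ⟨x₀, hx₀A⟩) (hd x hx x₀ hx₀))
      have h3 : w ⟨x₀, hx₀A⟩ i (-j) ≠ 0 := by
        intro h0
        rw [h0, Real.dist_eq, sub_zero] at h2
        have := le_abs_self (w ⟨x, hxA⟩ i (-j))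
        linarith
      have h4 : ∃ g, w ⟨x₀, hx₀A⟩ i g ≠ 0 := ⟨_, h3⟩
      have h5 : lab i = - h4.choose := dif_pos h4
      have h6 : h4.choose = -j := (f (ι ⟨x₀, hx₀A⟩)).2.2.2 i _ _ h4.choose_spec h3
      rw [Finset.coe_image]
      refine ⟨i, by simp, ?_⟩
      rw [h5, h6, neg_neg]
    have h2 := Set.ncard_le_ncard h1 (Set.toFinite _)
    rw [Set.ncard_coe_finset] at h2
    refine h2.trans (Finset.card_image_le.trans ?_)
    simp

/-- The index bound for the system `X_q`. -/
theorem index_bound (q : ℕ) (hq : 0 < q) (p : ℕ) [hp : Fact p.Prime] (hp2 : p ≠ 2) :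
    (p : ℕ∞) ≤ indPer (shiftHomeo q) p + ((6 * (p / q) + 8 : ℕ) : ℕ∞) := by
  have key : ∀ n : ℕ, HasMap (shiftHomeo q) p n → p ≤ n + (6 * (p / q) + 8) := by
    intro n hn
    have h1 := thin_of_hasMap q p n hn
    have hI1 : H317F.Inv {x : PP p | NP 1 q (per x)} := by
      intro x hx j
      show NP 1 q (per (rot j x))
      have : rot j x = rot (((j.val : ℕ) : ℤ) : ZMod p) x := by simp
      rw [this, ← T_per]
      exact NP_T hx _
    have hI : H317F.Inv (BadA p 1 q ∪ BadB p 1 q) := by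
      rintro x (hx | hx) j
      · exact Or.inl (inv_BadA _ _ x hx j)
      · exact Or.inr (inv_BadB _ _ x hx j)
    have h2 := h1.union ((thin_BadA (p := p) 1 q (by omega) hp.out.one_lt hq).union
      (thin_BadB (p := p) 1 q hq) (inv_BadA _ _) (inv_BadB _ _)) hI1 hI
    have h3 : OO p ⊆ {x : PP p | NP 1 q (per x)} ∪ (BadA p 1 q ∪ BadB p 1 q) := by
      intro x hx
      by_cases hnp : NP 1 q (per x)
      · exact Or.inl hnp
      · exact Or.inr (bad_subset 1 q x hx hnp)
    have h4 := h2.mono h3 le_rfl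
    by_contra hcon
    exact not_thin_OO p hp2 _ (by omega) h4
  unfold indPer
  rcases Set.eq_empty_or_nonempty {m : ℕ∞ | ∃ n : ℕ, HasMap (shiftHomeo q) p n ∧ m = n} with
    h | h
  · rw [h, sInf_empty, top_add]
    exact le_top
  · obtain ⟨n, hn, hmin⟩ : ∃ n : ℕ, HasMap (shiftHomeo q) p n ∧
        sInf {m : ℕ∞ | ∃ n : ℕ, HasMap (shiftHomeo q) p n ∧ m = n} = n := csInf_mem h
    rw [hmin]
    exact_mod_cast key n hn

/-- **Theorem.** For every `q ≥ 7` there is a fixed-point free dynamical system `(X, T)` such that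
`ind_p P_p(X) ≥ p - 6 ⌊p / q⌋ - 8` for every odd prime `p`; in particular the index is unbounded
(and grows linearly in `p`). -/
theorem result (q : ℕ) (hq : 7 ≤ q) :
    ∃ (X : Type) (_ : TopologicalSpace X) (T : X ≃ₜ X),
      CompactSpace X ∧ TopologicalSpace.MetrizableSpace X ∧ (∀ x, T x ≠ x) ∧
      (∀ (p : ℕ) [Fact p.Prime], p ≠ 2 →
        (p : ℕ∞) ≤ indPer T p + ((6 * (p / q) + 8 : ℕ) : ℕ∞)) ∧
      ∀ K : ℕ, ∃ (p : ℕ) (_ : Fact p.Prime), (K : ℕ∞) < indPer T p := by
  have hcomp : CompactSpace (Xq q) :=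
    isCompact_iff_compactSpace.mp (isClosed_NP 1 q).isCompact
  have hmet : TopologicalSpace.MetrizableSpace ({z : ZZ | NP 1 q z} : Set ZZ) := inferInstance
  refine ⟨Xq q, inferInstance, shiftHomeo q, hcomp, hmet, ?_, ?_, ?_⟩
  · intro x hx
    obtain ⟨t, _, h1⟩ := x.2 0
    have h2 : T 1 x.1 = x.1 := congrArg Subtype.val hx
    have h3 := congrFun h2 (0 + t)
    rw [T_apply] at h3
    rw [Nat.cast_one, h3, sub_self, abs_zero] at h1
    have : (0 : ℝ) < 1 / (10 * q) := by positivity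
    linarith
  · intro p hp hp2
    exact index_bound q (by omega) p hp2
  · intro K
    obtain ⟨p, hp1, hp⟩ := Nat.exists_infinite_primes (7 * K + 100)
    have hpf : Fact p.Prime := ⟨hp⟩
    refine ⟨p, hpf, ?_⟩
    have h1 := index_bound q (by omega) p (by omega)
    by_contra hcon
    push Not at hcon
    have h2 : (p : ℕ∞) ≤ (K : ℕ∞) + ((6 * (p / q) + 8 : ℕ) : ℕ∞) := by
      refine h1.trans ?_
      gcongr
    have h3 : p ≤ K + (6 * (p / q) + 8) := by exact_mod_cast h2
    have h4 : p / q ≤ p / 7 := Nat.div_le_div_left hq (by norm_num)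
    omega

end Pool.Agent.Results.MP_b3a110_an.LinearIndexGrowth
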